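import Mathlib

set_option autoImplicit false

namespace Pool.Agent.H56Z.Horo

open Filter Topology

variable {G : Type} [Group G]

/-- the Cayley graph -/
def cay (S : Finset G) : SimpleGraph G := SimpleGraph.fromRel (fun g h : G => g⁻¹ * h ∈ S)

theorem adj_mul (S : Finset G) (g : G) {x y : G} (h : (cay S).Adj x y) :
    (cay S).Adj (g * x) (g * y) := by
  simp only [cay, SimpleGraph.fromRel_adj] at h ⊢
  refine ⟨fun h' => h.1 (mul_left_cancel h'), ?_⟩
  have e1 : (g * x)⁻¹ * (g * y) = x⁻¹ * y := by group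
  have e2 : (g * y)⁻¹ * (g * x) = y⁻¹ * x := by group
  rw [e1, e2]
  exact h.2

/-- left multiplication as a graph map -/
def lmul (S : Finset G) (g : G) : cay S →g cay S := ⟨fun x => g * x, adj_mul S g⟩

theorem reach_mul (S : Finset G) (g : G) {x y : G} (h : (cay S).Reachable x y) :
    (cay S).Reachable (g * x) (g * y) := h.map (lmul S g)

theorem reach_all (S : Finset G) (hS : Subgroup.closure (S : Set G) = ⊤) (x y : G) :
    (cay S).Reachable x y := by
  have h1 : ∀ g : G, (cay S).Reachable 1 g := by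
    intro g
    have hg : g ∈ Subgroup.closure (S : Set G) := by rw [hS]; trivial
    induction hg using Subgroup.closure_induction with
    | mem x hx =>
      by_cases h : (1 : G) = x
      · rw [← h]
      · refine SimpleGraph.Adj.reachable ?_
        simp only [cay, SimpleGraph.fromRel_adj]
        exact ⟨h, Or.inl (by simpa using hx)⟩
    | one => rfl
    | mul a b _ _ ha hb =>
      have := reach_mul S a hb
      rw [mul_one] at this
      exact ha.trans this
    | inv a _ ha =>
      have := reach_mul S a⁻¹ ha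
      rw [mul_one, inv_mul_cancel] at this
      exact this.symm
  exact (h1 x).symm.trans (h1 y)

theorem conn (S : Finset G) (hS : Subgroup.closure (S : Set G) = ⊤) : (cay S).Connected :=
  ⟨fun x y => reach_all S hS x y⟩

theorem dist_mul_le (S : Finset G) (hS : Subgroup.closure (S : Set G) = ⊤) (g x y : G) :
    (cay S).dist (g * x) (g * y) ≤ (cay S).dist x y := by
  obtain ⟨p, hp⟩ := (reach_all S hS x y).exists_walk_length_eq_dist
  have := SimpleGraph.dist_le (p.map (lmul S g))
  rw [SimpleGraph.Walk.length_map, hp] at this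
  exact this

theorem dist_inv_mul (S : Finset G) (hS : Subgroup.closure (S : Set G) = ⊤) (g y : G) :
    (cay S).dist 1 (g⁻¹ * y) ≤ (cay S).dist g y := by
  have := dist_mul_le S hS g⁻¹ g y
  rwa [inv_mul_cancel] at this

theorem step (S : Finset G) (hS : Subgroup.closure (S : Set G) = ⊤) (u x : G) (k : ℕ)
    (h : (cay S).dist u x = k + 1) : ∃ v, (cay S).Adj u v ∧ (cay S).dist v x = k := by
  obtain ⟨p, hp⟩ := (reach_all S hS u x).exists_walk_length_eq_dist
  cases p with
  | nil => rw [h] at hp; simp at hp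
  | cons hadj q =>
    refine ⟨_, hadj, ?_⟩
    rw [SimpleGraph.Walk.length_cons, h] at hp
    have h1 := SimpleGraph.dist_le q
    have h2 := (conn S hS).dist_triangle (u := u) (v := _) (w := x)
      |>.trans (Nat.add_le_add_right (le_of_eq (SimpleGraph.dist_eq_one_iff_adj.2 hadj)) _)
    omega

theorem geo (S : Finset G) (hS : Subgroup.closure (S : Set G) = ⊤) (x : G) (r : ℕ)
    (h : r ≤ (cay S).dist 1 x) :
    ∃ g, (cay S).dist 1 g ≤ r ∧ (cay S).dist g x + r = (cay S).dist 1 x := by
  induction r with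
  | zero => exact ⟨1, by simp, by simp⟩
  | succ r ih =>
    obtain ⟨g, h1, h2⟩ := ih (by omega)
    obtain ⟨v, hv1, hv2⟩ := step S hS g x ((cay S).dist g x - 1) (by omega)
    refine ⟨v, ?_, by omega⟩
    have h3 := (conn S hS).dist_triangle (u := 1) (v := g) (w := v)
    have h4 := SimpleGraph.dist_eq_one_iff_adj.2 hv1
    omega

/-- balls around the identity -/
def ball (S : Finset G) (n : ℕ) : Set G := {x | (cay S).dist 1 x ≤ n}

theorem ball_finite (S : Finset G) (hS : Subgroup.closure (S : Set G) = ⊤) (n : ℕ) :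
    (ball S n).Finite := by
  induction n with
  | zero =>
    refine (Set.finite_singleton (1 : G)).subset ?_
    intro x hx
    have h : (cay S).dist 1 x = 0 := Nat.le_zero.1 hx
    exact (((conn S hS).dist_eq_zero_iff).1 h).symm
  | succ n ih =>
    refine (ih.union (((ih.prod S.finite_toSet).image (fun z => z.1 * z.2)).union
      ((ih.prod S.finite_toSet).image (fun z => z.1 * z.2⁻¹)))).subset ?_
    intro x hx
    by_cases h : (cay S).dist 1 x ≤ n
    · exact Or.inl h
    · have h1 : (cay S).dist x 1 = n + 1 := by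
        rw [SimpleGraph.dist_comm]
        have : (cay S).dist 1 x ≤ n + 1 := hx
        omega
      obtain ⟨v, hv1, hv2⟩ := step S hS x 1 n h1
      have hv : v ∈ ball S n := by
        show (cay S).dist 1 v ≤ n
        rw [SimpleGraph.dist_comm, hv2]
      simp only [cay, SimpleGraph.fromRel_adj] at hv1
      rcases hv1.2 with h2 | h2
      · exact Or.inr (Or.inr ⟨(v, x⁻¹ * v), ⟨hv, h2⟩, by simp⟩)
      · exact Or.inr (Or.inl ⟨(v, v⁻¹ * x), ⟨hv, h2⟩, by simp⟩)

/-- the functional of a point -/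
noncomputable def bf (S : Finset G) (x : G) : G → ℤ :=
  fun z => (((cay S).dist z x : ℕ) : ℤ) - (((cay S).dist 1 x : ℕ) : ℤ)

theorem compact_closure (S : Finset G) (hS : Subgroup.closure (S : Set G) = ⊤) :
    IsCompact (closure (Set.range (bf S))) := by
  have h1 : IsCompact (Set.pi Set.univ (fun z : G =>
      Set.Icc (-(((cay S).dist z 1 : ℕ) : ℤ)) (((cay S).dist z 1 : ℕ) : ℤ))) :=
    isCompact_univ_pi (fun z => (Set.finite_Icc _ _).isCompact)
  refine h1.of_isClosed_subset isClosed_closure (closure_minimal ?_ h1.isClosed)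
  rintro _ ⟨x, rfl⟩ z _
  have a1 := (conn S hS).dist_triangle (u := z) (v := 1) (w := x)
  have a2 := (conn S hS).dist_triangle (u := 1) (v := z) (w := x)
  have a3 : (cay S).dist 1 z = (cay S).dist z 1 := SimpleGraph.dist_comm
  simp only [bf, Set.mem_Icc]
  omega

omit [Group G] in
theorem open_cyl (B : Set G) (hB : B.Finite) (h : G → ℤ) :
    IsOpen {f : G → ℤ | ∀ z ∈ B, f z = h z} := by
  have : {f : G → ℤ | ∀ z ∈ B, f z = h z} = ⋂ z ∈ B, (fun f : G → ℤ => f z) ⁻¹' {h z} := by
    ext f; simp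
  rw [this]
  exact hB.isOpen_biInter (fun z _ => (isOpen_discrete _).preimage (continuous_apply z))

theorem descends (S : Finset G) (hS : Subgroup.closure (S : Set G) = ⊤) (h : G → ℤ)
    (h1 : h ∈ closure (Set.range (bf S))) (h2 : h ∉ Set.range (bf S)) (r : ℕ) :
    ∃ g, h g = -(r : ℤ) := by
  by_contra hcon
  push Not at hcon
  have hU := open_cyl _ (ball_finite S hS r) h
  have h3 : h ∈ closure ({f : G → ℤ | ∀ z ∈ ball S r, f z = h z} ∩ Set.range (bf S)) :=
    hU.inter_closure ⟨fun _ _ => rfl, h1⟩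
  have h4 : {f : G → ℤ | ∀ z ∈ ball S r, f z = h z} ∩ Set.range (bf S) ⊆ bf S '' ball S r := by
    rintro _ ⟨hf, x, rfl⟩
    refine ⟨x, ?_, rfl⟩
    by_contra hx
    obtain ⟨g, hg1, hg2⟩ := geo S hS x r (le_of_lt (not_le.1 hx))
    have := hf g hg1
    refine hcon g ?_
    rw [← this]
    simp only [bf]
    omega
  have h5 := closure_minimal h4 ((ball_finite S hS r).image _).isClosed h3
  exact h2 (Set.image_subset_range _ _ h5)

theorem finite_cover (S : Finset G) (hS : Subgroup.closure (S : Set G) = ⊤)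
    (hc : (closure (Set.range (bf S)) \ Set.range (bf S)).Countable) (ρ : ℕ → ℕ) :
    ∃ (T : Finset ℕ) (g : ℕ → G) (R : ℕ), ∀ y, R < (cay S).dist 1 y →
      ∃ i ∈ T, (cay S).dist (g i) y + ρ i = (cay S).dist 1 y := by
  classical
  obtain ⟨e, he⟩ := Set.countable_iff_exists_injOn.1 hc
  have hg : ∀ i : ℕ, ∃ g : G, ∀ h ∈ closure (Set.range (bf S)) \ Set.range (bf S), e h = i →
      h g = -(ρ i : ℤ) := by
    intro i
    by_cases hi : ∃ h ∈ closure (Set.range (bf S)) \ Set.range (bf S), e h = i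
    · obtain ⟨h, hh, rfl⟩ := hi
      obtain ⟨g, hg⟩ := descends S hS h hh.1 hh.2 (ρ (e h))
      exact ⟨g, fun h' hh' e' => by rw [he hh' hh e']; exact hg⟩
    · exact ⟨1, fun h hh e' => absurd ⟨h, hh, e'⟩ hi⟩
  choose g hg using hg
  let U : ℕ ⊕ G → Set (G → ℤ) := fun i =>
    match i with
    | Sum.inl i => {f | ∀ z ∈ ({g i} : Set G), f z = (fun _ => -(ρ i : ℤ)) z}
    | Sum.inr x => {f | ∀ z ∈ ball S ((cay S).dist 1 x + 1), f z = bf S x z}
  have hUo : ∀ i, IsOpen (U i) := by
    rintro (i | x)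
    · exact open_cyl _ (Set.finite_singleton _) _
    · exact open_cyl _ (ball_finite S hS _) _
  have hcov : closure (Set.range (bf S)) ⊆ ⋃ i, U i := by
    intro h hh
    by_cases h2 : h ∈ Set.range (bf S)
    · obtain ⟨x, rfl⟩ := h2
      exact Set.mem_iUnion.2 ⟨Sum.inr x, fun _ _ => rfl⟩
    · refine Set.mem_iUnion.2 ⟨Sum.inl (e h), ?_⟩
      rintro z rfl
      exact hg _ h ⟨hh, h2⟩ rfl
  obtain ⟨t, ht⟩ := (compact_closure S hS).elim_finite_subcover U hUo hcov
  refine ⟨t.toLeft, g, t.toRight.sup (fun x => (cay S).dist 1 x), fun y hy => ?_⟩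
  obtain ⟨i, hi, hy2⟩ := Set.mem_iUnion₂.1 (ht (subset_closure ⟨y, rfl⟩))
  rcases i with i | x
  · refine ⟨i, Finset.mem_toLeft.2 hi, ?_⟩
    have := hy2 (g i) rfl
    simp only [bf] at this
    omega
  · exfalso
    have h1 : (cay S).dist 1 x ≤ t.toRight.sup (fun x => (cay S).dist 1 x) :=
      Finset.le_sup (f := fun x => (cay S).dist 1 x) (Finset.mem_toRight.2 hi)
    obtain ⟨g', hg1, hg2⟩ := geo S hS y ((cay S).dist 1 x + 1) (by omega)
    have := hy2 g' hg1
    simp only [bf] at this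
    omega

theorem subexp (S : Finset G) (hS : Subgroup.closure (S : Set G) = ⊤)
    (hc : (closure (Set.range (bf S)) \ Set.range (bf S)).Countable) (μ : ℝ) (hμ : 1 < μ) :
    ∃ C : ℝ, ∀ n : ℕ, ((ball S n).ncard : ℝ) ≤ C * μ ^ n := by
  classical
  obtain ⟨r0, hr0⟩ := pow_unbounded_of_one_lt 2 hμ
  have hr00 : 0 < r0 := by
    rcases Nat.eq_zero_or_pos r0 with h | h
    · rw [h] at hr0; norm_num at hr0
    · exact h
  obtain ⟨T, g, R, hT⟩ := finite_cover S hS hc (fun i => r0 * (i + 2))
  have hμ0 : 0 < μ := by linarith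
  have hsum : ∑ i ∈ T, (μ ^ (r0 * (i + 2)))⁻¹ ≤ 1 / 2 := by
    calc ∑ i ∈ T, (μ ^ (r0 * (i + 2)))⁻¹ ≤ ∑ i ∈ T, (1 / 4) * (1 / 2 : ℝ) ^ i := by
          refine Finset.sum_le_sum (fun i _ => ?_)
          have h1 : (2 : ℝ) ^ (i + 2) ≤ μ ^ (r0 * (i + 2)) := by
            rw [pow_mul]; gcongr
          calc (μ ^ (r0 * (i + 2)))⁻¹ ≤ ((2 : ℝ) ^ (i + 2))⁻¹ := inv_anti₀ (by positivity) h1
            _ = _ := by rw [one_div, one_div, inv_pow, pow_add]; field_simp; norm_num
      _ = (1 / 4) * ∑ i ∈ T, (1 / 2 : ℝ) ^ i := by rw [Finset.mul_sum]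
      _ ≤ (1 / 4) * 2 := by
          gcongr
          exact le_trans (summable_geometric_two.sum_le_tsum T (fun i _ => by positivity))
            (le_of_eq tsum_geometric_two)
      _ = 1 / 2 := by norm_num
  set C : ℝ := 2 * (ball S R).ncard with hC
  have hC0 : 0 ≤ C := by positivity
  refine ⟨C, fun n => ?_⟩
  induction n using Nat.strong_induction_on with
  | _ n ih =>
    let B : ℕ → Finset G := fun m => (ball_finite S hS m).toFinset
    have hB : ∀ m, (ball S m).ncard = (B m).card := fun m => Set.ncard_eq_toFinset_card _ _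
    have hBm : ∀ m y, y ∈ B m ↔ (cay S).dist 1 y ≤ m :=
      fun m y => (ball_finite S hS m).mem_toFinset
    have hsub : B n ⊆ B R ∪ (T.filter (fun i => r0 * (i + 2) ≤ n)).biUnion
        (fun i => (B (n - r0 * (i + 2))).image (fun z => g i * z)) := by
      intro y hy
      have hy' : (cay S).dist 1 y ≤ n := (hBm _ _).1 hy
      by_cases h : (cay S).dist 1 y ≤ R
      · exact Finset.mem_union_left _ ((hBm _ _).2 h)
      · obtain ⟨i, hi, h2⟩ := hT y (not_le.1 h)
        refine Finset.mem_union_right _ (Finset.mem_biUnion.2 ⟨i,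
          Finset.mem_filter.2 ⟨hi, by omega⟩, Finset.mem_image.2 ⟨(g i)⁻¹ * y, ?_, by group⟩⟩)
        refine (hBm _ _).2 ?_
        have := dist_inv_mul S hS (g i) y
        omega
    have h1 : (B n).card ≤ (B R).card + ∑ i ∈ T.filter (fun i => r0 * (i + 2) ≤ n),
        (B (n - r0 * (i + 2))).card :=
      le_trans (Finset.card_le_card hsub) (le_trans (Finset.card_union_le _ _)
        (Nat.add_le_add_left (le_trans Finset.card_biUnion_le
          (Finset.sum_le_sum (fun i _ => Finset.card_image_le))) _))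
    have h2 : ((B n).card : ℝ) ≤ (B R).card + ∑ i ∈ T.filter (fun i => r0 * (i + 2) ≤ n),
        ((B (n - r0 * (i + 2))).card : ℝ) := by exact_mod_cast h1
    have h3 : ∑ i ∈ T.filter (fun i => r0 * (i + 2) ≤ n), ((B (n - r0 * (i + 2))).card : ℝ) ≤
        ∑ i ∈ T, C * μ ^ n * (μ ^ (r0 * (i + 2)))⁻¹ := by
      refine le_trans (Finset.sum_le_sum (fun i hi => ?_))
        (Finset.sum_le_sum_of_subset_of_nonneg (Finset.filter_subset _ _)
          (fun i _ _ => by positivity))
      have hi' := (Finset.mem_filter.1 hi).2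
      have hpos : 0 < r0 * (i + 2) := by positivity
      have := ih (n - r0 * (i + 2)) (by omega)
      rw [hB] at this
      refine le_trans this (le_of_eq ?_)
      rw [pow_sub₀ _ hμ0.ne' hi']
      ring
    rw [← Finset.mul_sum] at h3
    have h4 : C * μ ^ n * ∑ i ∈ T, (μ ^ (r0 * (i + 2)))⁻¹ ≤ C * μ ^ n * (1 / 2) := by gcongr
    have h5 : C ≤ C * μ ^ n := le_mul_of_one_le_right hC0 (one_le_pow₀ hμ.le)
    rw [hB] at hC
    rw [hB]
    linarith

theorem uncountable (S : Finset G) (hS : Subgroup.closure (S : Set G) = ⊤) (c : ℝ) (hc : 1 < c)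
    (hg : ∃ᶠ n : ℕ in atTop, c ^ n ≤ ((ball S n).ncard : ℝ)) :
    ¬ (closure (Set.range (bf S)) \ Set.range (bf S)).Countable := by
  intro h
  obtain ⟨C, hC⟩ := subexp S hS h ((1 + c) / 2) (by linarith)
  have h1 : 1 < c / ((1 + c) / 2) := by
    rw [one_lt_div (by linarith)]; linarith
  have h2 := (tendsto_pow_atTop_atTop_of_one_lt h1).eventually_gt_atTop C
  obtain ⟨n, h3, h4⟩ := (hg.and_eventually h2).exists
  have h5 := hC n
  rw [div_pow, lt_div_iff₀ (by positivity)] at h4
  linarith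

end Pool.Agent.H56Z.Horo
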